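import Mathlib

open MeasureTheory Set Filter Topology
open scoped ENNReal NNReal

namespace Pool.Agent.Results.MP_924b48_an.RotatingDust

/-! ### Definitions -/

section Defs

variable {W : Type*} [NormedAddCommGroup W] [InnerProductSpace ℝ W] [MeasurableSpace W]
  [BorelSpace W]

/-- `F` is `m`-rectifiable: up to a null set it is covered by countably many Lipschitz images of
the Euclidean space of dimension `m`. -/
def IsRectifiable (m : ℕ) (F : Set W) : Prop :=
  ∃ f : ℕ → EuclideanSpace ℝ (Fin m) → W, (∀ i, ∃ C : ℝ≥0, LipschitzWith C (f i)) ∧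
    μH[(m : ℝ)] (F \ ⋃ i, range (f i)) = 0

/-- `E` is purely `m`-unrectifiable. -/
def IsPurelyUnrectifiable (m : ℕ) (E : Set W) : Prop :=
  ∀ F : Set W, IsRectifiable m F → μH[(m : ℝ)] (E ∩ F) = 0

/-- The cone at `x` with axis `V` and opening `α`, truncated at the radius `r`. -/
def cone (x : W) (r : ℝ) (V : Submodule ℝ W) (α : ℝ) : Set W :=
  {y | y ∈ Metric.closedBall x r ∧ Metric.infDist (y - x) (V : Set W) < α * ‖y - x‖}

/-- The quantity `Θ_α(μ, x)`: the upper limit, as `r` decreases to `0`, of the infimum over the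
subspaces `V` of dimension `dim W - m` of `(2r)^{-m} μ(X(x, r, V, α))`. -/
noncomputable def upperConical (m : ℕ) (α : ℝ) (μ : Measure W) (x : W) : ℝ≥0∞ :=
  limsup (fun r : ℝ => ⨅ V : {V : Submodule ℝ W //
      Module.finrank ℝ V = Module.finrank ℝ W - m},
    μ (cone x r V α) / ENNReal.ofReal (2 * r) ^ m) (𝓝[>] 0)

end Defs

/-- The Euclidean plane. -/
abbrev E2 : Type := EuclideanSpace ℝ (Fin 2)

/-! ### Angles -/

/-- the increments of the angles -/
noncomputable def th (k : ℕ) : ℝ := 1 / (10000 * ((k : ℝ) + 1))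

/-- the angles -/
noncomputable def Th (k : ℕ) : ℝ := ∑ i ∈ Finset.range k, th i

lemma th_pos (k : ℕ) : 0 < th k := by unfold th; positivity

lemma th_le (k : ℕ) : th k ≤ 1 / 10000 := by
  unfold th
  apply one_div_le_one_div_of_le (by norm_num)
  have : (0 : ℝ) ≤ k := by positivity
  linarith

lemma th_anti {j k : ℕ} (h : j ≤ k) : th k ≤ th j := by
  unfold th
  have h1 : (j : ℝ) ≤ k := by exact_mod_cast h
  apply one_div_le_one_div_of_le (by positivity)
  linarith

lemma Th_succ (k : ℕ) : Th (k + 1) = Th k + th k := by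
  unfold Th
  rw [Finset.sum_range_succ]

lemma Th_add (N j : ℕ) : 0 ≤ Th (N + j) - Th N ∧ Th (N + j) - Th N ≤ j * th N := by
  induction j with
  | zero => simp
  | succ j ih =>
    rw [← add_assoc, Th_succ]
    have h1 := th_pos (N + j)
    have h2 := th_anti (show N ≤ N + j by omega)
    push_cast
    constructor <;> nlinarith [ih.1, ih.2]

lemma Th_tendsto : Tendsto Th atTop atTop := by
  have h1 : Th = fun n => (1 / 10000) * ∑ i ∈ Finset.range n, 1 / ((i : ℝ) + 1) := by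
    funext n
    unfold Th th
    rw [Finset.mul_sum]
    refine Finset.sum_congr rfl fun i _ => ?_
    field_simp
  rw [h1]
  exact Tendsto.const_mul_atTop (by norm_num) Real.tendsto_sum_range_one_div_nat_succ_atTop

/-! ### The core estimate -/

lemma geo : HasSum (fun j : ℕ => ((1 : ℝ) / 3) ^ j) (3 / 2) := by
  have := hasSum_geometric_of_lt_one (show (0 : ℝ) ≤ 1 / 3 by norm_num) (by norm_num)
  norm_num at this ⊢
  exact this

lemma geo1 : HasSum (fun j : ℕ => (j : ℝ) * (1 / 3) ^ j) (3 / 4) := by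
  have := hasSum_coe_mul_geometric_of_norm_lt_one (r := (1 / 3 : ℝ)) (by
    rw [Real.norm_eq_abs, abs_of_pos] <;> norm_num)
  norm_num at this ⊢
  exact this

lemma sq_le (j : ℕ) : (j : ℝ) ^ 2 * (1 / 3) ^ j ≤ 4 * (3 / 4) ^ j := by
  have h1 := one_add_mul_le_pow (show (-2 : ℝ) ≤ 1 / 2 by norm_num) j
  have h2 : (j : ℝ) ≤ 2 * (3 / 2) ^ j := by norm_num at h1 ⊢; linarith
  have h3 : (j : ℝ) ^ 2 ≤ (2 * (3 / 2) ^ j) ^ 2 := pow_le_pow_left₀ (by positivity) h2 2
  have h4 : (2 * (3 / 2 : ℝ) ^ j) ^ 2 * (1 / 3) ^ j = 4 * (3 / 4) ^ j := by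
    rw [mul_pow, ← pow_mul, mul_comm j 2, pow_mul, mul_assoc, ← mul_pow]
    norm_num
  rw [← h4]
  exact mul_le_mul_of_nonneg_right h3 (by positivity)

section Core

variable {D φ : ℕ → ℝ} {θ : ℝ}

lemma core_summable (hD : ∀ j, |D j| ≤ 2) {u : ℕ → ℝ} (hu : ∀ j, |u j| ≤ 1) :
    Summable fun j => (1 / 3 : ℝ) ^ j * D j * u j := by
  refine Summable.of_norm_bounded (g := fun j => 2 * (1 / 3 : ℝ) ^ j) (geo.summable.mul_left 2)
    fun j => ?_
  rw [Real.norm_eq_abs, abs_mul, abs_mul, abs_of_pos (by positivity : (0 : ℝ) < (1 / 3) ^ j)]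
  have h1 := hD j
  have h2 := hu j
  have h3 : (0 : ℝ) < (1 / 3) ^ j := by positivity
  calc (1 / 3 : ℝ) ^ j * |D j| * |u j| ≤ (1 / 3 : ℝ) ^ j * 2 * 1 := by
        apply mul_le_mul (mul_le_mul_of_nonneg_left h1 h3.le) h2 (abs_nonneg _) (by positivity)
    _ = _ := by ring

lemma core_summable' (hD : ∀ j, |D j| ≤ 2) : Summable fun j => (1 / 3 : ℝ) ^ j * D j := by
  have := core_summable hD (u := fun _ => 1) (by simp)
  simpa using this

/-- `δ ≥ 0`. -/
lemma core_delta (hD : ∀ j, |D j| ≤ 2) (h0 : 1 ≤ D 0) :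
    0 ≤ ∑' j, (1 / 3 : ℝ) ^ j * D j := by
  have h1 : HasSum (fun j : ℕ => ((1 : ℝ) / 3) ^ j * (-2)) (3 / 2 * (-2)) := geo.mul_right (-2)
  have h2 := (core_summable' hD).tsum_eq_zero_add
  have h3 : Summable fun j : ℕ => (1 / 3 : ℝ) ^ (j + 1) * D (j + 1) :=
    (summable_nat_add_iff 1).2 (core_summable' hD)
  have h4 : HasSum (fun j : ℕ => ((1 : ℝ) / 3) ^ (j + 1) * (-2)) (-1) := by
    have := (geo.mul_right (-2 / 3))
    convert! this using 1
    · funext j; rw [pow_succ]; ring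
    · norm_num
  have h5 : -1 ≤ ∑' j : ℕ, (1 / 3 : ℝ) ^ (j + 1) * D (j + 1) := by
    rw [← h4.tsum_eq]
    refine h4.summable.tsum_le_tsum (fun j => ?_) h3
    apply mul_le_mul_of_nonneg_left _ (by positivity)
    have := abs_le.1 (hD (j + 1))
    exact this.1
  rw [h2]
  simp only [pow_zero, one_mul]
  linarith

lemma core_p (hD : ∀ j, |D j| ≤ 2) (hφ : ∀ j, |φ j| ≤ j * θ) :
    |∑' j, (1 / 3 : ℝ) ^ j * D j * Real.cos (φ j) - ∑' j, (1 / 3 : ℝ) ^ j * D j| ≤ 16 * θ ^ 2 := by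
  rw [← (core_summable hD fun j => Real.abs_cos_le_one _).tsum_sub (core_summable' hD)]
  have h1 : HasSum (fun j : ℕ => 4 * (3 / 4 : ℝ) ^ j * θ ^ 2) (16 * θ ^ 2) := by
    have := hasSum_geometric_of_lt_one (show (0 : ℝ) ≤ 3 / 4 by norm_num) (by norm_num)
    have h2 := (this.mul_left 4).mul_right (θ ^ 2)
    convert! h2 using 1
    norm_num
  rw [← Real.norm_eq_abs]
  refine tsum_of_norm_bounded h1 fun j => ?_
  have h2 : (1 / 3 : ℝ) ^ j * D j * Real.cos (φ j) - (1 / 3 : ℝ) ^ j * D j =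
      (1 / 3 : ℝ) ^ j * (D j * (Real.cos (φ j) - 1)) := by ring
  rw [h2, Real.norm_eq_abs, abs_mul, abs_mul, abs_of_pos (by positivity : (0 : ℝ) < (1 / 3) ^ j)]
  have h3 : |Real.cos (φ j) - 1| ≤ (j * θ) ^ 2 / 2 := by
    have h4 := Real.one_sub_sq_div_two_le_cos (x := φ j)
    have h5 := Real.cos_le_one (φ j)
    rw [abs_sub_comm, abs_of_nonneg (by linarith)]
    have h6 : φ j ^ 2 ≤ (j * θ) ^ 2 := by
      rw [← sq_abs]
      exact pow_le_pow_left₀ (abs_nonneg _) (hφ j) 2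
    linarith
  calc (1 / 3 : ℝ) ^ j * (|D j| * |Real.cos (φ j) - 1|)
      ≤ (1 / 3 : ℝ) ^ j * (2 * ((j * θ) ^ 2 / 2)) := by
        apply mul_le_mul_of_nonneg_left _ (by positivity)
        exact mul_le_mul (hD j) h3 (abs_nonneg _) (by norm_num)
    _ = ((j : ℝ) ^ 2 * (1 / 3) ^ j) * θ ^ 2 := by ring
    _ ≤ _ := mul_le_mul_of_nonneg_right (sq_le j) (by positivity)

lemma core_q (hD : ∀ j, |D j| ≤ 2) (hφ : ∀ j, |φ j| ≤ j * θ) :
    |∑' j, (1 / 3 : ℝ) ^ j * D j * Real.sin (φ j)| ≤ 3 / 2 * θ := by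
  have h1 : HasSum (fun j : ℕ => (j : ℝ) * (1 / 3) ^ j * (2 * θ)) (3 / 2 * θ) := by
    have h2 := geo1.mul_right (2 * θ)
    convert! h2 using 1
    ring
  rw [← Real.norm_eq_abs]
  refine tsum_of_norm_bounded h1 fun j => ?_
  rw [Real.norm_eq_abs, abs_mul, abs_mul, abs_of_pos (by positivity : (0 : ℝ) < (1 / 3) ^ j)]
  have h3 : |Real.sin (φ j)| ≤ j * θ := Real.abs_sin_le_abs.trans (hφ j)
  calc (1 / 3 : ℝ) ^ j * |D j| * |Real.sin (φ j)| ≤ (1 / 3 : ℝ) ^ j * 2 * (j * θ) := by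
        apply mul_le_mul _ h3 (abs_nonneg _) (by positivity)
        exact mul_le_mul_of_nonneg_left (hD j) (by positivity)
    _ = _ := by ring

lemma core_q_neg (hD : ∀ j, |D j| ≤ 2) (h0 : 1 ≤ D 0) (hφ0 : φ 0 = 0) (hφ1 : φ 1 = θ)
    (hφ : ∀ j : ℕ, |φ (j + 1) - φ 1| ≤ j * θ) (hθ : 0 < θ) (hθ1 : θ ≤ 1 / 10000)
    (hδ : ∑' j, (1 / 3 : ℝ) ^ j * D j ≤ 1 / 4) :
    ∑' j, (1 / 3 : ℝ) ^ j * D j * Real.sin (φ j) ≤ -(θ / 5) := by
  have hs1 := core_summable hD (u := fun j => Real.sin (φ j)) fun j => Real.abs_sin_le_one _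
  have hs2 := core_summable' hD
  have hs3 : Summable fun j : ℕ => (1 / 3 : ℝ) ^ (j + 1) * D (j + 1) * Real.sin (φ (j + 1)) :=
    (summable_nat_add_iff 1).2 hs1
  have hs4 : Summable fun j : ℕ => (1 / 3 : ℝ) ^ (j + 1) * D (j + 1) :=
    (summable_nat_add_iff 1).2 hs2
  rw [hs1.tsum_eq_zero_add, hφ0, Real.sin_zero, mul_zero, zero_add]
  rw [hs2.tsum_eq_zero_add] at hδ
  simp only [pow_zero, one_mul] at hδ
  set A := ∑' j : ℕ, (1 / 3 : ℝ) ^ (j + 1) * D (j + 1) with hA
  have hA1 : A ≤ -(3 / 4) := by linarith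
  have hsplit : ∑' j : ℕ, (1 / 3 : ℝ) ^ (j + 1) * D (j + 1) * Real.sin (φ (j + 1)) -
      A * Real.sin θ =
      ∑' j : ℕ, (1 / 3 : ℝ) ^ (j + 1) * D (j + 1) * (Real.sin (φ (j + 1)) - Real.sin θ) := by
    rw [hA, ← tsum_mul_right, ← hs3.tsum_sub (hs4.mul_right _)]
    refine tsum_congr fun j => ?_
    ring
  have hrem : |∑' j : ℕ, (1 / 3 : ℝ) ^ (j + 1) * D (j + 1) *
      (Real.sin (φ (j + 1)) - Real.sin θ)| ≤ θ / 2 := by
    have h1 : HasSum (fun j : ℕ => (j : ℝ) * (1 / 3) ^ j * (2 / 3 * θ)) (θ / 2) := by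
      have h2 := geo1.mul_right (2 / 3 * θ)
      convert! h2 using 1
      ring
    rw [← Real.norm_eq_abs]
    refine tsum_of_norm_bounded h1 fun j => ?_
    rw [Real.norm_eq_abs, abs_mul, abs_mul,
      abs_of_pos (by positivity : (0 : ℝ) < (1 / 3) ^ (j + 1))]
    have h3 : |Real.sin (φ (j + 1)) - Real.sin θ| ≤ j * θ := by
      have h4 : |Real.sin (φ (j + 1)) - Real.sin (φ 1)| ≤ |φ (j + 1) - φ 1| :=
        Real.abs_sin_sub_sin_le _ _
      rw [hφ1] at h4
      have h5 := hφ j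
      rw [hφ1] at h5
      exact h4.trans h5
    calc (1 / 3 : ℝ) ^ (j + 1) * |D (j + 1)| * |Real.sin (φ (j + 1)) - Real.sin θ|
        ≤ (1 / 3 : ℝ) ^ (j + 1) * 2 * (j * θ) := by
          apply mul_le_mul _ h3 (abs_nonneg _) (by positivity)
          exact mul_le_mul_of_nonneg_left (hD _) (by positivity)
      _ = _ := by rw [pow_succ]; ring
  have hsin : 99 / 100 * θ ≤ Real.sin θ := by
    have h1 := Real.sin_gt_sub_cube hθ
    have h2 : θ ^ 3 / 6 ≤ 1 / 100 * θ := by
      have : θ ^ 2 ≤ 1 / 100 := by nlinarith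
      have h3 : θ ^ 3 = θ * θ ^ 2 := by ring
      rw [h3]
      nlinarith
    linarith
  have h1 := (abs_le.1 hrem).2
  have h2 : A * Real.sin θ ≤ -(3 / 4) * (99 / 100 * θ) := by nlinarith
  linarith

end Core

/-! ### Rotated coordinates -/

/-- the coordinate along the direction `θ` -/
noncomputable def px (θ : ℝ) (v : E2) : ℝ := Real.cos θ * v 0 + Real.sin θ * v 1

/-- the coordinate orthogonal to the direction `θ` -/
noncomputable def qx (θ : ℝ) (v : E2) : ℝ := -Real.sin θ * v 0 + Real.cos θ * v 1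

/-- the unit vector of direction `θ` -/
noncomputable def dir (θ : ℝ) : E2 := !₂[Real.cos θ, Real.sin θ]

lemma norm_sq_eq (θ : ℝ) (v : E2) : ‖v‖ ^ 2 = px θ v ^ 2 + qx θ v ^ 2 := by
  rw [EuclideanSpace.norm_sq_eq, Fin.sum_univ_two]
  simp only [Real.norm_eq_abs, sq_abs]
  unfold px qx
  have h := Real.sin_sq_add_cos_sq θ
  have : (Real.cos θ * v 0 + Real.sin θ * v 1) ^ 2 + (-Real.sin θ * v 0 + Real.cos θ * v 1) ^ 2 =
      (Real.sin θ ^ 2 + Real.cos θ ^ 2) * (v 0 ^ 2 + v 1 ^ 2) := by ring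
  rw [this, h, one_mul]

lemma abs_px_le (θ : ℝ) (v : E2) : |px θ v| ≤ ‖v‖ := by
  apply abs_le_of_sq_le_sq _ (norm_nonneg _)
  rw [norm_sq_eq θ v]
  nlinarith [sq_nonneg (qx θ v)]

lemma abs_qx_le (θ : ℝ) (v : E2) : |qx θ v| ≤ ‖v‖ := by
  apply abs_le_of_sq_le_sq _ (norm_nonneg _)
  rw [norm_sq_eq θ v]
  nlinarith [sq_nonneg (px θ v)]

lemma qx_rot (θ ψ : ℝ) (v : E2) :
    qx ψ v = px θ v * Real.sin (θ - ψ) + qx θ v * Real.cos (θ - ψ) := by
  unfold px qx
  rw [Real.sin_sub, Real.cos_sub]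
  have h := Real.sin_sq_add_cos_sq θ
  linear_combination (Real.sin ψ * v 0 - Real.cos ψ * v 1) * h

lemma qx_sub (ψ : ℝ) (v w : E2) : qx ψ (v - w) = qx ψ v - qx ψ w := by
  unfold qx
  simp only [PiLp.sub_apply]
  ring

lemma px_sub (ψ : ℝ) (v w : E2) : px ψ (v - w) = px ψ v - px ψ w := by
  unfold px
  simp only [PiLp.sub_apply]
  ring

lemma qx_neg (ψ : ℝ) (v : E2) : qx ψ (-v) = -qx ψ v := by
  unfold qx
  simp only [PiLp.neg_apply]
  ring

lemma qx_smul (ψ c : ℝ) (v : E2) : qx ψ (c • v) = c * qx ψ v := by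
  unfold qx
  simp only [PiLp.smul_apply, smul_eq_mul]
  ring

lemma qx_dir (ψ : ℝ) : qx ψ (dir ψ) = 0 := by
  unfold qx dir
  simp only [Matrix.cons_val_zero, Matrix.cons_val_one]
  ring

lemma dir_ne_zero (ψ : ℝ) : dir ψ ≠ 0 := by
  intro h
  have h2 : Real.cos ψ = 0 := congrArg (fun v : E2 => v 0) h
  have h3 : Real.sin ψ = 0 := congrArg (fun v : E2 => v 1) h
  have := Real.sin_sq_add_cos_sq ψ
  rw [h2, h3] at this
  norm_num at this

/-- The distance to a line. -/
lemma le_infDist_line (ψ : ℝ) (z : E2) :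
    |qx ψ z| ≤ Metric.infDist z ((ℝ ∙ dir ψ : Submodule ℝ E2) : Set E2) := by
  rw [Metric.le_infDist ⟨0, Submodule.zero_mem _⟩]
  intro y hy
  obtain ⟨c, rfl⟩ := Submodule.mem_span_singleton.1 hy
  rw [dist_eq_norm]
  have h1 := abs_qx_le ψ (z - c • dir ψ)
  rwa [qx_sub, qx_smul, qx_dir, mul_zero, sub_zero] at h1

/-! ### The set -/

/-- the values of the digits -/
noncomputable def val (i : Fin 3) : ℝ := ((i : ℕ) : ℝ) - 1

lemma abs_val (i : Fin 3) : |val i| ≤ 1 := by
  unfold val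
  fin_cases i <;> norm_num

lemma val_sub (i j : Fin 3) : |val i - val j| ≤ 2 := by
  have h1 := abs_le.1 (abs_val i)
  have h2 := abs_le.1 (abs_val j)
  rw [abs_le]
  constructor <;> linarith [h1.1, h1.2, h2.1, h2.2]

lemma val_lt {i j : Fin 3} (h : i < j) : 1 ≤ val j - val i := by
  unfold val
  have : ((i : ℕ) : ℝ) + 1 ≤ ((j : ℕ) : ℝ) := by exact_mod_cast h
  linarith

/-- the point with digits `d` -/
noncomputable def pt (d : ℕ → Fin 3) : E2 :=
  !₂[∑' n, (1 / 3 : ℝ) ^ n * val (d n) * Real.cos (Th n),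
    ∑' n, (1 / 3 : ℝ) ^ n * val (d n) * Real.sin (Th n)]

/-- the parameter of a point -/
noncomputable def tt (d : ℕ → Fin 3) : ℝ := ∑' n, (1 / 3 : ℝ) ^ n * val (d n)

lemma val_summable (d : ℕ → Fin 3) {u : ℕ → ℝ} (hu : ∀ j, |u j| ≤ 1) :
    Summable fun n => (1 / 3 : ℝ) ^ n * val (d n) * u n :=
  core_summable (fun j => (abs_val _).trans one_le_two) hu

lemma px_pt (θ : ℝ) (d : ℕ → Fin 3) :
    px θ (pt d) = ∑' n, (1 / 3 : ℝ) ^ n * val (d n) * Real.cos (Th n - θ) := by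
  unfold px pt
  simp only [Matrix.cons_val_zero, Matrix.cons_val_one]
  rw [← tsum_mul_left, ← tsum_mul_left, ← Summable.tsum_add
    ((val_summable d fun j => Real.abs_cos_le_one _).mul_left _)
    ((val_summable d fun j => Real.abs_sin_le_one _).mul_left _)]
  refine tsum_congr fun n => ?_
  rw [Real.cos_sub]
  ring

lemma qx_pt (θ : ℝ) (d : ℕ → Fin 3) :
    qx θ (pt d) = ∑' n, (1 / 3 : ℝ) ^ n * val (d n) * Real.sin (Th n - θ) := by
  unfold qx pt
  simp only [Matrix.cons_val_zero, Matrix.cons_val_one]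
  rw [← tsum_mul_left, ← tsum_mul_left, ← Summable.tsum_add
    ((val_summable d fun j => Real.abs_cos_le_one _).mul_left _)
    ((val_summable d fun j => Real.abs_sin_le_one _).mul_left _)]
  refine tsum_congr fun n => ?_
  rw [Real.sin_sub]
  ring

/-- Shifting a series whose first terms vanish. -/
lemma shift {D u : ℕ → ℝ} {N : ℕ} (hD : ∀ j, |D j| ≤ 2) (hu : ∀ j, |u j| ≤ 1)
    (h : ∀ n < N, D n = 0) : ∑' n, (1 / 3 : ℝ) ^ n * D n * u n =
      (1 / 3) ^ N * ∑' j, (1 / 3 : ℝ) ^ j * D (N + j) * u (N + j) := by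
  rw [← (core_summable hD hu).sum_add_tsum_nat_add N, Finset.sum_eq_zero, zero_add,
    ← tsum_mul_left]
  · refine tsum_congr fun j => ?_
    rw [add_comm j N, pow_add]
    ring
  · intro n hn
    rw [h n (Finset.mem_range.1 hn)]
    ring

/-- Elementary algebra for a pair. -/
lemma pair_alg {P Q δ θ ρ : ℝ} (hθ : 0 < θ) (hθ1 : θ ≤ 1 / 10000) (c0 : 0 ≤ δ)
    (c1 : |P - δ| ≤ 16 * θ ^ 2) (c2 : |Q| ≤ 3 / 2 * θ) (c3 : δ ≤ 1 / 4 → Q ≤ -(θ / 5))
    (hP : |P| ≤ ρ) (hQ : |Q| ≤ ρ) (hρ0 : 0 ≤ ρ) :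
    (∃ a b : ℝ, 0 ≤ a ∧ 0 ≤ b ∧ |P - a| ≤ 100 * θ * ρ ∧ |Q + b| ≤ 100 * θ * ρ) ∧
      θ / 5 ≤ ρ ∧ δ ≤ 2 * ρ := by
  have hc1 := abs_le.1 c1
  have hPabs := abs_le.1 hP
  have hQabs := abs_le.1 hQ
  have hθθ : θ ^ 2 ≤ 1 / 10000 * θ := by
    rw [sq]
    exact mul_le_mul_of_nonneg_right hθ1 hθ.le
  rcases le_total δ (1 / 4) with hle | hle
  · have h4 := c3 hle
    have h5 : θ / 5 ≤ ρ := by linarith [hQabs.1]
    have h6 : θ * (θ / 5) ≤ θ * ρ := mul_le_mul_of_nonneg_left h5 hθ.le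
    refine ⟨⟨δ, -Q, c0, by linarith, ?_, ?_⟩, h5, ?_⟩
    · refine c1.trans ?_
      have h7 : 16 * θ ^ 2 = 80 * (θ * (θ / 5)) := by ring
      have h8 : 0 ≤ θ * ρ := by positivity
      rw [h7]
      linarith
    · rw [add_neg_cancel, abs_zero]
      positivity
    · linarith [hc1.1, hPabs.2]
  · have h4 : δ ≤ 2 * ρ := by linarith [hc1.1, hPabs.2]
    have h5 : 1 / 8 ≤ ρ := by linarith
    have h6 : θ * (1 / 8) ≤ θ * ρ := mul_le_mul_of_nonneg_left h5 hθ.le
    refine ⟨⟨δ, 0, c0, le_rfl, ?_, ?_⟩, by linarith, h4⟩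
    · refine c1.trans ?_
      linarith
    · rw [add_zero]
      refine c2.trans ?_
      linarith

/-- The geometry of a pair of points. -/
lemma pair {d d' : ℕ → Fin 3} {N : ℕ} (h : ∀ n < N, d n = d' n) (hlt : d N < d' N) :
    (∃ a b : ℝ, 0 ≤ a ∧ 0 ≤ b ∧
      |px (Th N) (pt d' - pt d) - a| ≤ 100 * th N * ‖pt d' - pt d‖ ∧
      |qx (Th N) (pt d' - pt d) + b| ≤ 100 * th N * ‖pt d' - pt d‖) ∧
    (1 / 3) ^ N * th N / 5 ≤ ‖pt d' - pt d‖ ∧
    0 ≤ tt d' - tt d ∧ tt d' - tt d ≤ 2 * ‖pt d' - pt d‖ := by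
  set D : ℕ → ℝ := fun n => val (d' n) - val (d n) with hDdef
  have hD : ∀ j, |D j| ≤ 2 := fun j => val_sub _ _
  have hD0 : ∀ n < N, D n = 0 := fun n hn => by
    rw [hDdef]; simp only; rw [h n hn, sub_self]
  set v := pt d' - pt d with hv
  have hsub : ∀ u : ℕ → ℝ, (∀ j, |u j| ≤ 1) →
      ∑' n, (1 / 3 : ℝ) ^ n * val (d' n) * u n - ∑' n, (1 / 3 : ℝ) ^ n * val (d n) * u n =
      (1 / 3) ^ N * ∑' j, (1 / 3 : ℝ) ^ j * D (N + j) * u (N + j) := by
    intro u hu
    rw [← shift hD hu hD0, ← (val_summable d' hu).tsum_sub (val_summable d hu)]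
    refine tsum_congr fun n => ?_
    rw [hDdef]
    ring
  have hp : px (Th N) v = (1 / 3) ^ N *
      ∑' j, (1 / 3 : ℝ) ^ j * D (N + j) * Real.cos (Th (N + j) - Th N) := by
    rw [hv, px_sub, px_pt, px_pt]
    exact hsub (fun n => Real.cos (Th n - Th N)) fun j => Real.abs_cos_le_one _
  have hq : qx (Th N) v = (1 / 3) ^ N *
      ∑' j, (1 / 3 : ℝ) ^ j * D (N + j) * Real.sin (Th (N + j) - Th N) := by
    rw [hv, qx_sub, qx_pt, qx_pt]
    exact hsub (fun n => Real.sin (Th n - Th N)) fun j => Real.abs_sin_le_one _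
  have ht : tt d' - tt d = (1 / 3) ^ N * ∑' j, (1 / 3 : ℝ) ^ j * D (N + j) := by
    have := hsub (fun _ => 1) (by simp)
    simp only [mul_one] at this
    exact this
  set δ := ∑' j, (1 / 3 : ℝ) ^ j * D (N + j) with hδ
  have hθ := th_pos N
  have hθ1 := th_le N
  have hφ : ∀ j : ℕ, |Th (N + j) - Th N| ≤ j * th N := fun j => by
    rw [abs_of_nonneg (Th_add N j).1]
    exact (Th_add N j).2
  have c0 : 0 ≤ δ := core_delta (D := fun j => D (N + j)) (fun j => hD _) (by
    simp only [add_zero]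
    exact val_lt hlt)
  have c1 := core_p (D := fun j => D (N + j)) (φ := fun j => Th (N + j) - Th N) (θ := th N)
    (fun j => hD _) hφ
  have c2 := core_q (D := fun j => D (N + j)) (φ := fun j => Th (N + j) - Th N) (θ := th N)
    (fun j => hD _) hφ
  have c3 := core_q_neg (D := fun j => D (N + j)) (φ := fun j => Th (N + j) - Th N) (θ := th N)
    (fun j => hD _) (by simp only [add_zero]; exact val_lt hlt) (by simp) (by
      rw [Th_succ]; ring) (fun j => by
      have h1 := Th_add (N + 1) j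
      have h2 : Th (N + (j + 1)) - Th N - (Th (N + 1) - Th N) = Th (N + 1 + j) - Th (N + 1) := by
        rw [show N + (j + 1) = N + 1 + j by omega]; ring
      rw [h2, abs_of_nonneg h1.1]
      refine h1.2.trans ?_
      apply mul_le_mul_of_nonneg_left (th_anti (by omega)) (by positivity)) hθ hθ1
  set P := ∑' j, (1 / 3 : ℝ) ^ j * D (N + j) * Real.cos (Th (N + j) - Th N) with hP
  set Q := ∑' j, (1 / 3 : ℝ) ^ j * D (N + j) * Real.sin (Th (N + j) - Th N) with hQ
  have h3 : (0 : ℝ) < (1 / 3) ^ N := by positivity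
  -- normalised estimates
  have hnorm : ‖v‖ = (1 / 3) ^ N * Real.sqrt (P ^ 2 + Q ^ 2) := by
    have h4 := norm_sq_eq (Th N) v
    rw [hp, hq] at h4
    have h5 : ((1 / 3 : ℝ) ^ N * P) ^ 2 + ((1 / 3 : ℝ) ^ N * Q) ^ 2 =
        ((1 / 3 : ℝ) ^ N * Real.sqrt (P ^ 2 + Q ^ 2)) ^ 2 := by
      rw [mul_pow _ (Real.sqrt _), Real.sq_sqrt (by positivity)]
      ring
    rw [h5] at h4
    exact (pow_left_inj₀ (norm_nonneg _) (by positivity) two_ne_zero).1 h4
  set ρ := Real.sqrt (P ^ 2 + Q ^ 2) with hρ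
  have hρ0 : 0 ≤ ρ := Real.sqrt_nonneg _
  have hPρ : |P| ≤ ρ := Real.abs_le_sqrt (by nlinarith [sq_nonneg Q])
  have hQρ : |Q| ≤ ρ := Real.abs_le_sqrt (by nlinarith [sq_nonneg P])
  have key := pair_alg hθ hθ1 c0 c1 c2 c3 hPρ hQρ hρ0
  obtain ⟨⟨a, b, ha, hb, h6, h7⟩, h8, h9⟩ := key
  refine ⟨⟨(1 / 3) ^ N * a, (1 / 3) ^ N * b, by positivity, by positivity, ?_, ?_⟩, ?_, ?_, ?_⟩
  · rw [hp, hnorm, ← mul_sub, abs_mul, abs_of_pos h3]
    calc (1 / 3 : ℝ) ^ N * |P - a| ≤ (1 / 3 : ℝ) ^ N * (100 * th N * ρ) :=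
          mul_le_mul_of_nonneg_left h6 h3.le
      _ = _ := by ring
  · rw [hq, hnorm, ← mul_add, abs_mul, abs_of_pos h3]
    calc (1 / 3 : ℝ) ^ N * |Q + b| ≤ (1 / 3 : ℝ) ^ N * (100 * th N * ρ) :=
          mul_le_mul_of_nonneg_left h7 h3.le
      _ = _ := by ring
  · rw [hnorm, mul_div_assoc]
    exact mul_le_mul_of_nonneg_left h8 h3.le
  · rw [ht]
    exact mul_nonneg h3.le c0
  · rw [ht, hnorm]
    calc (1 / 3 : ℝ) ^ N * δ ≤ (1 / 3 : ℝ) ^ N * (2 * ρ) := mul_le_mul_of_nonneg_left h9 h3.le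
      _ = _ := by ring

lemma nat_sq_le (k : ℕ) : (k : ℝ) ^ 2 ≤ 3 ^ k := by
  induction k with
  | zero => norm_num
  | succ k ih =>
    rcases Nat.lt_or_ge k 2 with h | h
    · interval_cases k <;> norm_num
    · have h1 : (2 : ℝ) ≤ k := by exact_mod_cast h
      have h2 : (3 : ℝ) ^ (k + 1) = 3 ^ k * 3 := pow_succ _ _
      push_cast
      nlinarith

lemma angle_bound {n N K : ℕ} {ρ : ℝ} (hN : N < n + K) (hK : (K : ℝ) * th n ≤ 8 / 100)
    (h3 : (1 / 3) ^ N * th N / 5 ≤ ρ) (hnorm : ρ ≤ 3 * (1 / 3) ^ n) :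
    |Th N - Th n| ≤ 8 / 100 := by
  have hθ := th_pos N
  have hθ1 := th_le N
  rcases le_total n N with hnN | hnN
  · obtain ⟨j, rfl⟩ := Nat.exists_eq_add_of_le hnN
    have h4 := Th_add n j
    rw [abs_of_nonneg h4.1]
    refine h4.2.trans (le_trans ?_ hK)
    apply mul_le_mul_of_nonneg_right _ (th_pos n).le
    exact_mod_cast (by omega : j ≤ K)
  · obtain ⟨j, rfl⟩ := Nat.exists_eq_add_of_le hnN
    have h4 := Th_add N j
    rw [abs_sub_comm, abs_of_nonneg h4.1]
    refine h4.2.trans ?_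
    have h5 : (1 / 3 : ℝ) ^ N * th N / 5 ≤ 3 * (1 / 3) ^ (N + j) := h3.trans hnorm
    have h6 : th N * 3 ^ j ≤ 15 := by
      rw [pow_add] at h5
      have h7 : (0 : ℝ) < (1 / 3) ^ N := by positivity
      have h8 : th N / 5 ≤ 3 * (1 / 3) ^ j := by
        by_contra h9
        rw [not_le] at h9
        nlinarith
      have h9 : (1 / 3 : ℝ) ^ j * 3 ^ j = 1 := by rw [← mul_pow]; norm_num
      have h10 : (0 : ℝ) < 3 ^ j := by positivity
      nlinarith
    have h7 := nat_sq_le j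
    have h8 : (j * th N) ^ 2 ≤ 15 / 10000 := by
      calc ((j : ℝ) * th N) ^ 2 = (j : ℝ) ^ 2 * th N * th N := by ring
        _ ≤ 3 ^ j * th N * th N := by
            apply mul_le_mul_of_nonneg_right _ hθ.le
            exact mul_le_mul_of_nonneg_right h7 hθ.le
        _ ≤ 15 * (1 / 10000) := by
            apply mul_le_mul _ hθ1 hθ.le (by norm_num)
            linarith
        _ = 15 / 10000 := by norm_num
    have h9 : (0 : ℝ) ≤ j * th N := by positivity
    nlinarith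

lemma sqrt_bounds : 7 / 10 < Real.sqrt 2 / 2 ∧ Real.sqrt 2 / 2 < 3 / 4 := by
  constructor
  · have : (14 / 10 : ℝ) < Real.sqrt 2 := by
      apply Real.lt_sqrt_of_sq_lt
      norm_num
    linarith
  · have : Real.sqrt 2 < 3 / 2 := by
      rw [Real.sqrt_lt' (by norm_num)]
      norm_num
    linarith

lemma cone_alg {p q a b ρ θ φ : ℝ} (hρ : 0 ≤ ρ) (hθ : 0 ≤ θ) (hθ1 : θ ≤ 1 / 10000) (ha : 0 ≤ a)
    (hb : 0 ≤ b) (h1 : |p - a| ≤ 100 * θ * ρ) (h2 : |q + b| ≤ 100 * θ * ρ)
    (hsq : ρ ^ 2 = p ^ 2 + q ^ 2) (hpn : |p| ≤ ρ) (hqn : |q| ≤ ρ) (hφ : |φ| ≤ 8 / 100) :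
    ρ / 2 ≤ |p * Real.sin (φ - Real.pi / 4) + q * Real.cos (φ - Real.pi / 4)| := by
  rw [Real.sin_sub φ (Real.pi / 4), Real.cos_sub φ (Real.pi / 4), Real.cos_pi_div_four,
    Real.sin_pi_div_four]
  obtain ⟨hc1, hc2⟩ := sqrt_bounds
  set c := Real.sqrt 2 / 2 with hc
  have hsin : |Real.sin φ| ≤ 8 / 100 := Real.abs_sin_le_abs.trans hφ
  have hcos : 99 / 100 ≤ Real.cos φ := by
    have h4 := Real.one_sub_sq_div_two_le_cos (x := φ)
    have h5 : φ ^ 2 ≤ (8 / 100) ^ 2 := by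
      rw [← sq_abs]
      exact pow_le_pow_left₀ (abs_nonneg _) hφ 2
    norm_num at h5
    linarith
  have hθρ : 100 * θ * ρ ≤ 1 / 100 * ρ := by nlinarith
  have hab : 98 / 100 * ρ ≤ a + b := by
    have h5 : ρ ≤ |p| + |q| := by
      apply le_of_sq_le_sq _ (by positivity)
      rw [hsq, add_sq, sq_abs, sq_abs]
      have := mul_nonneg (abs_nonneg p) (abs_nonneg q)
      linarith
    have h6 : |p| ≤ a + 1 / 100 * ρ := by
      have : |p| ≤ |p - a| + |a| := by
        have := abs_add_le (p - a) a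
        simpa using this
      rw [abs_of_nonneg ha] at this
      linarith
    have h7 : |q| ≤ b + 1 / 100 * ρ := by
      have : |q| ≤ |q + b| + |b| := by
        have := abs_add_le (q + b) (-b)
        simpa using this
      rw [abs_of_nonneg hb] at this
      linarith
    linarith
  have hlow : (96 / 100) * ρ ≤ p - q := by
    have h4 := (abs_le.1 h1).1
    have h5 := (abs_le.1 h2).2
    linarith
  have h4 : |(p + q) * Real.sin φ| ≤ 2 * ρ * (8 / 100) := by
    rw [abs_mul]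
    apply mul_le_mul _ hsin (abs_nonneg _) (by positivity)
    exact (abs_add_le _ _).trans (by linarith)
  have h5 := (abs_le.1 h4).2
  have h6 : (96 / 100) * ρ * (99 / 100) ≤ (p - q) * Real.cos φ := by
    apply mul_le_mul hlow hcos (by norm_num)
    have : 0 ≤ (96 / 100) * ρ := by positivity
    linarith
  have h7 : (75 / 100) * ρ ≤ (p - q) * Real.cos φ - (p + q) * Real.sin φ := by linarith
  have h9 : (7 / 10) * ((75 / 100) * ρ) ≤ c * ((p - q) * Real.cos φ - (p + q) * Real.sin φ) :=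
    mul_le_mul hc1.le h7 (by positivity) (by linarith)
  have h8 : ρ / 2 ≤ -(p * (Real.sin φ * c - Real.cos φ * c) + q * (Real.cos φ * c + Real.sin φ * c)) := by
    have h10 : -(p * (Real.sin φ * c - Real.cos φ * c) + q * (Real.cos φ * c + Real.sin φ * c)) =
        c * ((p - q) * Real.cos φ - (p + q) * Real.sin φ) := by ring
    rw [h10]
    linarith
  exact h8.trans (neg_le_abs _)

/-- The cone condition for a pair of points, one order. -/
lemma cone_pair_lt {d d' : ℕ → Fin 3} {N n K : ℕ} (h : ∀ n < N, d n = d' n) (hlt : d N < d' N)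
    (hN : N < n + K) (hK : (K : ℝ) * th n ≤ 8 / 100)
    (hnorm : ‖pt d' - pt d‖ ≤ 3 * (1 / 3) ^ n) :
    ‖pt d' - pt d‖ / 2 ≤ |qx (Th n + Real.pi / 4) (pt d' - pt d)| := by
  obtain ⟨⟨a, b, ha, hb, h1, h2⟩, h3, -, -⟩ := pair h hlt
  have hφ := angle_bound hN hK h3 hnorm
  rw [qx_rot (Th N) (Th n + Real.pi / 4) (pt d' - pt d),
    show Th N - (Th n + Real.pi / 4) = (Th N - Th n) - Real.pi / 4 by ring]
  exact cone_alg (norm_nonneg _) (th_pos N).le (th_le N) ha hb h1 h2 (norm_sq_eq _ _)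
    (abs_px_le _ _) (abs_qx_le _ _) hφ

/-- The cone condition for a pair of points. -/
lemma cone_pair {d d' : ℕ → Fin 3} {N n K : ℕ} (h : ∀ n < N, d n = d' n) (hne : d N ≠ d' N)
    (hN : N < n + K) (hK : (K : ℝ) * th n ≤ 8 / 100)
    (hnorm : ‖pt d' - pt d‖ ≤ 3 * (1 / 3) ^ n) :
    ‖pt d' - pt d‖ / 2 ≤ |qx (Th n + Real.pi / 4) (pt d' - pt d)| := by
  rcases lt_or_gt_of_ne hne with hlt | hlt
  · exact cone_pair_lt h hlt hN hK hnorm
  · have h1 := cone_pair_lt (fun n hn => (h n hn).symm) hlt hN hK (by rwa [norm_sub_rev])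
    have h2 : pt d' - pt d = -(pt d - pt d') := by abel
    rw [h2, norm_neg, qx_neg, abs_neg]
    exact h1

/-! ### Size of the set -/

lemma agree_le {d d' : ℕ → Fin 3} {N : ℕ} (h : ∀ n < N, d n = d' n) :
    ‖pt d' - pt d‖ ≤ 6 * (1 / 3) ^ N := by
  set D : ℕ → ℝ := fun n => val (d' n) - val (d n) with hDdef
  have hD : ∀ j, |D j| ≤ 2 := fun j => val_sub _ _
  have hD0 : ∀ n < N, D n = 0 := fun n hn => by
    rw [hDdef]; simp only; rw [h n hn, sub_self]
  have hsub : ∀ u : ℕ → ℝ, (∀ j, |u j| ≤ 1) →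
      |∑' n, (1 / 3 : ℝ) ^ n * val (d' n) * u n - ∑' n, (1 / 3 : ℝ) ^ n * val (d n) * u n| ≤
      (1 / 3) ^ N * 3 := by
    intro u hu
    have h1 : ∑' n, (1 / 3 : ℝ) ^ n * val (d' n) * u n - ∑' n, (1 / 3 : ℝ) ^ n * val (d n) * u n =
        (1 / 3) ^ N * ∑' j, (1 / 3 : ℝ) ^ j * D (N + j) * u (N + j) := by
      rw [← shift hD hu hD0, ← (val_summable d' hu).tsum_sub (val_summable d hu)]
      refine tsum_congr fun n => ?_
      rw [hDdef]
      ring
    rw [h1, abs_mul, abs_of_pos (by positivity : (0 : ℝ) < (1 / 3) ^ N)]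
    apply mul_le_mul_of_nonneg_left _ (by positivity)
    have h2 : HasSum (fun j : ℕ => (1 / 3 : ℝ) ^ j * 2) 3 := by
      have := geo.mul_right 2
      norm_num at this ⊢
      exact this
    rw [← Real.norm_eq_abs]
    refine tsum_of_norm_bounded h2 fun j => ?_
    rw [Real.norm_eq_abs, abs_mul, abs_mul, abs_of_pos (by positivity : (0 : ℝ) < (1 / 3) ^ j)]
    calc (1 / 3 : ℝ) ^ j * |D (N + j)| * |u (N + j)| ≤ (1 / 3 : ℝ) ^ j * 2 * 1 := by
          apply mul_le_mul (mul_le_mul_of_nonneg_left (hD _) (by positivity)) (hu _)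
            (abs_nonneg _) (by positivity)
      _ = _ := by ring
  have hp := hsub (fun n => Real.cos (Th n - 0)) fun j => Real.abs_cos_le_one _
  have hq := hsub (fun n => Real.sin (Th n - 0)) fun j => Real.abs_sin_le_one _
  rw [← px_pt, ← px_pt, ← px_sub] at hp
  rw [← qx_pt, ← qx_pt, ← qx_sub] at hq
  have h5 : ‖pt d' - pt d‖ ≤ |px 0 (pt d' - pt d)| + |qx 0 (pt d' - pt d)| := by
    apply le_of_sq_le_sq _ (by positivity)
    rw [norm_sq_eq 0, add_sq, sq_abs, sq_abs]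
    have := mul_nonneg (abs_nonneg (px 0 (pt d' - pt d))) (abs_nonneg (qx 0 (pt d' - pt d)))
    linarith
  linarith

/-- The set. -/
def E : Set E2 := range pt

/-- The pieces. -/
def cyl (d : ℕ → Fin 3) (N : ℕ) : Set E2 := pt '' {d' | ∀ i < N, d i = d' i}

lemma pt_continuous : Continuous pt := by
  unfold pt
  refine (PiLp.continuous_toLp 2 _).comp (continuous_pi fun i => ?_)
  have h1 : ∀ u : ℕ → ℝ, (∀ j, |u j| ≤ 1) →
      Continuous fun d : ℕ → Fin 3 => ∑' n, (1 / 3 : ℝ) ^ n * val (d n) * u n := by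
    intro u hu
    refine continuous_tsum (u := fun n => (1 / 3 : ℝ) ^ n) (fun n => ?_) geo.summable
      fun n d => ?_
    · have : Continuous fun d : ℕ → Fin 3 => val (d n) :=
        (continuous_of_discreteTopology (f := val)).comp (continuous_apply n)
      fun_prop
    · rw [Real.norm_eq_abs, abs_mul, abs_mul, abs_of_pos (by positivity : (0 : ℝ) < (1 / 3) ^ n)]
      calc (1 / 3 : ℝ) ^ n * |val (d n)| * |u n| ≤ (1 / 3 : ℝ) ^ n * 1 * 1 := by
            apply mul_le_mul (mul_le_mul_of_nonneg_left (abs_val _) (by positivity)) (hu _)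
              (abs_nonneg _) (by positivity)
        _ = _ := by ring
  fin_cases i
  · exact h1 _ fun j => Real.abs_cos_le_one _
  · exact h1 _ fun j => Real.abs_sin_le_one _

lemma E_compact : IsCompact E := isCompact_range pt_continuous

lemma ediam_cyl (d : ℕ → Fin 3) (N : ℕ) :
    Metric.ediam (cyl d N) ≤ ENNReal.ofReal (6 * (1 / 3) ^ N) := by
  refine Metric.ediam_le ?_
  rintro _ ⟨d1, h1, rfl⟩ _ ⟨d2, h2, rfl⟩
  rw [edist_dist, dist_eq_norm, norm_sub_rev]
  exact ENNReal.ofReal_le_ofReal (agree_le fun n hn => (h1 n hn).symm.trans (h2 n hn))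

/-- the extension of a word -/
def ext (d : ℕ → Fin 3) (N k : ℕ) (w : Fin k → Fin 3) : ℕ → Fin 3 := fun i =>
  if i < N then d i else if h : i - N < k then w ⟨i - N, h⟩ else 0

lemma measure_cyl (d : ℕ → Fin 3) (N : ℕ) :
    μH[1] (cyl d N) ≤ ENNReal.ofReal (6 * (1 / 3) ^ N) := by
  have hr : Tendsto (fun k : ℕ => ENNReal.ofReal (6 * (1 / 3) ^ (N + k))) atTop (𝓝 0) := by
    have h1 : Tendsto (fun k : ℕ => 6 * (1 / 3 : ℝ) ^ (N + k)) atTop (𝓝 0) := by
      have h2 := (tendsto_pow_atTop_nhds_zero_of_lt_one (show (0 : ℝ) ≤ 1 / 3 by norm_num)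
        (by norm_num)).const_mul (6 * (1 / 3) ^ N)
      rw [mul_zero] at h2
      refine h2.congr fun k => ?_
      rw [pow_add]; ring
    simpa using ENNReal.tendsto_ofReal h1
  refine (Measure.hausdorffMeasure_le_liminf_sum 1 (cyl d N)
    (fun k => ENNReal.ofReal (6 * (1 / 3) ^ (N + k))) hr
    (fun k (w : Fin k → Fin 3) => cyl (ext d N k w) (N + k))
    (Eventually.of_forall fun k w => ediam_cyl _ _)
    (Eventually.of_forall fun k => ?_)).trans ?_
  · rintro _ ⟨d', hd', rfl⟩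
    refine mem_iUnion.2 ⟨fun j => d' (N + j), d', fun i hi => ?_, rfl⟩
    unfold ext
    by_cases h : i < N
    · rw [if_pos h]; exact hd' i h
    · rw [if_neg h, dif_pos (by omega)]
      simp only
      congr 1
      omega
  · have h1 : ∀ k : ℕ, ∑ w : Fin k → Fin 3, Metric.ediam (cyl (ext d N k w) (N + k)) ^ (1 : ℝ) ≤
        ENNReal.ofReal (6 * (1 / 3) ^ N) := by
      intro k
      calc ∑ w : Fin k → Fin 3, Metric.ediam (cyl (ext d N k w) (N + k)) ^ (1 : ℝ)
          ≤ ∑ w : Fin k → Fin 3, ENNReal.ofReal (6 * (1 / 3) ^ (N + k)) := by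
            refine Finset.sum_le_sum fun w _ => ?_
            rw [ENNReal.rpow_one]
            exact ediam_cyl _ _
        _ = ENNReal.ofReal (6 * (1 / 3) ^ N) := by
            rw [Finset.sum_const, Finset.card_univ, nsmul_eq_mul, Fintype.card_fun,
              Fintype.card_fin, Fintype.card_fin, ← ENNReal.ofReal_natCast,
              ← ENNReal.ofReal_mul (by positivity)]
            congr 1
            push_cast
            rw [pow_add]
            have : (3 : ℝ) ^ k * (1 / 3) ^ k = 1 := by rw [← mul_pow]; norm_num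
            linear_combination (6 * (1 / 3) ^ N) * this
    refine (liminf_le_liminf (Eventually.of_forall h1)).trans ?_
    exact liminf_const _ |>.le

lemma measure_E_lt_top : μH[1] E < ⊤ := by
  have h1 : E ⊆ cyl (fun _ => 0) 0 := by
    rintro _ ⟨d, rfl⟩
    exact ⟨d, fun i hi => absurd hi (Nat.not_lt_zero i), rfl⟩
  exact lt_of_le_of_lt ((measure_mono h1).trans (measure_cyl _ _)) ENNReal.ofReal_lt_top

/-! ### Positive measure -/

lemma tt_lip (d d' : ℕ → Fin 3) : |tt d' - tt d| ≤ 2 * ‖pt d' - pt d‖ := by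
  classical
  by_cases h : ∃ n, d n ≠ d' n
  · have hn := Nat.find_spec h
    have hlt : ∀ i < Nat.find h, d i = d' i := fun i hi => by
      have := Nat.find_min h hi
      push Not at this
      exact this
    rcases lt_or_gt_of_ne hn with h1 | h1
    · obtain ⟨-, -, h2, h3⟩ := pair hlt h1
      rw [abs_of_nonneg h2]; exact h3
    · obtain ⟨-, -, h2, h3⟩ := pair (fun i hi => (hlt i hi).symm) h1
      rw [abs_sub_comm, abs_of_nonneg h2, norm_sub_rev]; exact h3
  · push Not at h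
    have : d = d' := funext h
    rw [this]
    simp

/-- nearest digit -/
noncomputable def near (t : ℝ) : Fin 3 := if t < -(1 / 2) then 0 else if t ≤ 1 / 2 then 1 else 2

lemma near_spec {t : ℝ} (ht : |t| ≤ 3 / 2) : |3 * (t - val (near t))| ≤ 3 / 2 := by
  have h := abs_le.1 ht
  unfold near
  split_ifs with h1 h2
  · have : val 0 = -1 := by unfold val; norm_num
    rw [this, abs_le]
    constructor <;> linarith [h.1]
  · have : val 1 = 0 := by unfold val; norm_num
    rw [this, abs_le]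
    constructor <;> linarith
  · have : val 2 = 1 := by unfold val; norm_num
    rw [this, abs_le]
    constructor <;> linarith [h.2]

/-- the orbit of `t` -/
noncomputable def orb (t : ℝ) : ℕ → ℝ
  | 0 => t
  | n + 1 => 3 * (orb t n - val (near (orb t n)))

lemma tt_surj {t : ℝ} (ht : |t| ≤ 3 / 2) : ∃ d, tt d = t := by
  have hb : ∀ n, |orb t n| ≤ 3 / 2 := by
    intro n
    induction n with
    | zero => exact ht
    | succ n ih => exact near_spec ih
  refine ⟨fun n => near (orb t n), ?_⟩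
  have hpart : ∀ n, ∑ i ∈ Finset.range n, (1 / 3 : ℝ) ^ i * val (near (orb t i)) =
      t - (1 / 3) ^ n * orb t n := by
    intro n
    induction n with
    | zero => simp [orb]
    | succ n ih =>
      rw [Finset.sum_range_succ, ih]
      show _ = t - (1 / 3) ^ (n + 1) * (3 * (orb t n - val (near (orb t n))))
      rw [pow_succ]
      ring
  have hs : Summable fun n => (1 / 3 : ℝ) ^ n * val (near (orb t n)) := by
    have := val_summable (fun n => near (orb t n)) (u := fun _ => 1) (by simp)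
    simpa using this
  have h1 := hs.hasSum.tendsto_sum_nat
  have h2 : Tendsto (fun n => t - (1 / 3 : ℝ) ^ n * orb t n) atTop (𝓝 t) := by
    have h3 : Tendsto (fun n => (1 / 3 : ℝ) ^ n * orb t n) atTop (𝓝 0) := by
      refine squeeze_zero_norm (a := fun n => (1 / 3 : ℝ) ^ n * (3 / 2)) (fun n => ?_) ?_
      · rw [Real.norm_eq_abs, abs_mul, abs_of_pos (by positivity : (0 : ℝ) < (1 / 3) ^ n)]
        exact mul_le_mul_of_nonneg_left (hb n) (by positivity)
      · have := (tendsto_pow_atTop_nhds_zero_of_lt_one (show (0 : ℝ) ≤ 1 / 3 by norm_num)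
          (by norm_num)).mul_const (3 / 2)
        rwa [zero_mul] at this
    simpa using h3.const_sub t
  simp_rw [hpart] at h1
  exact tendsto_nhds_unique h1 h2

lemma measure_E_pos : 0 < μH[1] E := by
  choose! g hg using fun x : E2 => (fun hx : x ∈ E => (hx : ∃ d, pt d = x))
  have hL : LipschitzOnWith 2 (fun x => tt (g x)) E := by
    refine LipschitzOnWith.of_dist_le_mul fun x hx y hy => ?_
    have := tt_lip (g y) (g x)
    rw [hg x hx, hg y hy] at this
    rw [Real.dist_eq, dist_eq_norm]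
    exact this
  have h1 := hL.hausdorffMeasure_image_le (d := 1) zero_le_one
  have h2 : Icc (-(3 / 2) : ℝ) (3 / 2) ⊆ (fun x => tt (g x)) '' E := by
    intro t ht
    obtain ⟨d, hd⟩ := tt_surj (abs_le.2 ht)
    refine ⟨pt d, ⟨d, rfl⟩, ?_⟩
    have h3 := tt_lip d (g (pt d))
    rw [hg (pt d) ⟨d, rfl⟩, sub_self, norm_zero, mul_zero] at h3
    have h4 := abs_nonpos_iff.1 h3
    show tt (g (pt d)) = t
    linarith
  by_contra h0
  rw [not_lt, nonpos_iff_eq_zero] at h0
  rw [h0, mul_zero] at h1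
  have h5 : μH[1] (Icc (-(3 / 2) : ℝ) (3 / 2)) ≤ 0 := (measure_mono h2).trans h1
  rw [hausdorffMeasure_real, Real.volume_Icc] at h5
  norm_num at h5

/-! ### The upper conical density -/

lemma cone_inter {d : ℕ → Fin 3} {n K : ℕ} {r α : ℝ} (hα : α ≤ 1 / 2)
    (hK : (K : ℝ) * th n ≤ 8 / 100) (hr : r ≤ (1 / 3) ^ n) :
    cone (pt d) r (ℝ ∙ dir (Th n + Real.pi / 4)) α ∩ E ⊆ cyl d (n + K) := by
  classical
  rintro y ⟨⟨hy1, hy2⟩, d', rfl⟩
  refine ⟨d', ?_, rfl⟩
  by_contra hcon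
  have hex : ∃ i, d i ≠ d' i := by
    by_contra h
    push Not at h
    exact hcon fun i _ => h i
  have hn := Nat.find_spec hex
  have hlt : ∀ i < Nat.find hex, d i = d' i := fun i hi => by
    have := Nat.find_min hex hi
    push Not at this
    exact this
  have hN : Nat.find hex < n + K := by
    by_contra h
    exact hcon fun i hi => hlt i (by omega)
  rw [Metric.mem_closedBall, dist_eq_norm] at hy1
  have h3 : (0 : ℝ) < (1 / 3) ^ n := by positivity
  have h1 := cone_pair hlt hn hN hK (by linarith)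
  have h2 := le_infDist_line (Th n + Real.pi / 4) (pt d' - pt d)
  have h4 : α * ‖pt d' - pt d‖ ≤ 1 / 2 * ‖pt d' - pt d‖ :=
    mul_le_mul_of_nonneg_right hα (norm_nonneg _)
  linarith

lemma th_tendsto : Tendsto th atTop (𝓝 0) := by
  unfold th
  refine Tendsto.div_atTop tendsto_const_nhds ?_
  refine Tendsto.const_mul_atTop (by norm_num) ?_
  exact tendsto_atTop_add_const_right _ _ tendsto_natCast_atTop_atTop

lemma upper_zero {α : ℝ} (hα : α ≤ 1 / 2) {x : E2} (hx : x ∈ E) :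
    upperConical 1 α ((μH[1] : Measure E2).restrict E) x = 0 := by
  obtain ⟨d, rfl⟩ := hx
  have key : ∀ K : ℕ, upperConical 1 α ((μH[1] : Measure E2).restrict E) (pt d) ≤
      ENNReal.ofReal (9 * (1 / 3) ^ K) := by
    intro K
    unfold upperConical
    have hev : ∀ᶠ n in atTop, (K : ℝ) * th n ≤ 8 / 100 := by
      have h1 := th_tendsto.const_mul (K : ℝ)
      rw [mul_zero] at h1
      filter_upwards [h1.eventually (gt_mem_nhds (show (0 : ℝ) < 8 / 100 by norm_num))] with n hn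
      exact hn.le
    obtain ⟨n0, hn0⟩ := eventually_atTop.1 hev
    refine limsup_le_of_le (h := ?_)
    have hpos : (0 : ℝ) < (1 / 3) ^ (n0 + 1) := by positivity
    filter_upwards [Ioo_mem_nhdsGT hpos] with r hr
    have hr1 : r ≤ 1 := hr.2.le.trans (pow_le_one₀ (by norm_num) (by norm_num))
    obtain ⟨n, hn1, hn2⟩ := exists_nat_pow_near_of_lt_one hr.1 hr1
      (show (0 : ℝ) < 1 / 3 by norm_num) (by norm_num)
    have hnn : n0 ≤ n := by
      by_contra h
      push Not at h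
      have h2 : (1 / 3 : ℝ) ^ (n0 + 1) ≤ (1 / 3) ^ (n + 1) :=
        pow_le_pow_of_le_one (by norm_num) (by norm_num) (by omega)
      linarith [hr.2]
    have hfin : Module.finrank ℝ (ℝ ∙ dir (Th n + Real.pi / 4) : Submodule ℝ E2) =
        Module.finrank ℝ E2 - 1 := by
      rw [finrank_span_singleton (dir_ne_zero _), finrank_euclideanSpace, Fintype.card_fin]
    refine (iInf_le _ ⟨ℝ ∙ dir (Th n + Real.pi / 4), hfin⟩).trans ?_
    rw [Measure.restrict_apply' E_compact.measurableSet, pow_one]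
    have h1 := (measure_mono (cone_inter (d := d) hα (hn0 n hnn) hn2)).trans
      (measure_cyl d (n + K))
    refine (ENNReal.div_le_div_right h1 _).trans ?_
    rw [← ENNReal.ofReal_div_of_pos (by linarith [hr.1])]
    apply ENNReal.ofReal_le_ofReal
    rw [div_le_iff₀ (by linarith [hr.1])]
    have h2 : 6 * (1 / 3 : ℝ) ^ (n + K) = 9 * (1 / 3) ^ K * (2 * (1 / 3) ^ (n + 1)) := by
      rw [pow_add, pow_succ]; ring
    rw [h2]
    apply mul_le_mul_of_nonneg_left _ (by positivity)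
    linarith
  refine le_antisymm ?_ zero_le
  have hlim : Tendsto (fun K : ℕ => ENNReal.ofReal (9 * (1 / 3) ^ K)) atTop (𝓝 0) := by
    have h1 := (tendsto_pow_atTop_nhds_zero_of_lt_one (show (0 : ℝ) ≤ 1 / 3 by norm_num)
      (by norm_num)).const_mul 9
    rw [mul_zero] at h1
    simpa using ENNReal.tendsto_ofReal h1
  exact ge_of_tendsto' hlim key

/-! ### Pure unrectifiability -/

lemma image_null {F : ℝ → E2} {C : ℝ≥0} (hF : LipschitzWith C F) {A : Set ℝ}
    (hA : volume A = 0) : μH[1] (F '' A) = 0 := by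
  have h1 := hF.hausdorffMeasure_image_le (d := 1) zero_le_one A
  rw [hausdorffMeasure_real, hA, mul_zero] at h1
  exact le_antisymm h1 zero_le

/-- The image of the critical points is null. -/
lemma crit (F : ℝ → E2) : μH[1] (F '' {t | HasDerivAt F 0 t}) = 0 := by
  set Z := {t | HasDerivAt F 0 t} with hZ
  have key : ∀ (a : ℝ) (ε : ℝ), 0 < ε → μH[1] (F '' (Z ∩ Icc a (a + 1))) ≤ ENNReal.ofReal ε := by
    intro a ε hε
    let Zk : ℕ → Set ℝ := fun k =>
      {t | t ∈ Z ∧ ∀ s, |s - t| ≤ 1 / ((k : ℝ) + 1) → ‖F s - F t‖ ≤ ε * |s - t|}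
    have hmono : Monotone fun k => F '' (Zk k ∩ Icc a (a + 1)) := by
      intro j k hjk
      apply image_mono
      apply inter_subset_inter_left
      rintro t ⟨ht, h⟩
      refine ⟨ht, fun s hs => h s (hs.trans ?_)⟩
      apply one_div_le_one_div_of_le (by positivity)
      have : (j : ℝ) ≤ k := by exact_mod_cast hjk
      linarith
    have hunion : F '' (Z ∩ Icc a (a + 1)) ⊆ ⋃ k, F '' (Zk k ∩ Icc a (a + 1)) := by
      rintro _ ⟨t, ⟨ht, hta⟩, rfl⟩
      have h1 := (hasDerivAt_iff_isLittleO.1 ht).def hε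
      obtain ⟨δ, hδ, hball⟩ := Metric.eventually_nhds_iff.1 h1
      obtain ⟨k, hk⟩ := exists_nat_one_div_lt hδ
      refine mem_iUnion.2 ⟨k, t, ⟨⟨ht, fun s hs => ?_⟩, hta⟩, rfl⟩
      have h2 := @hball s (by rw [Real.dist_eq]; exact lt_of_le_of_lt hs hk)
      simpa using h2
    refine (measure_mono hunion).trans ?_
    rw [hmono.measure_iUnion]
    refine iSup_le fun k => ?_
    have hk0 : (0 : ℝ) < (k : ℝ) + 1 := by positivity
    let I : ℕ → Set ℝ := fun i => Icc (a + i / ((k : ℝ) + 1)) (a + (i + 1) / ((k : ℝ) + 1))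
    have hcover : F '' (Zk k ∩ Icc a (a + 1)) ⊆ ⋃ i ∈ Finset.range (k + 1), F '' (Zk k ∩ I i) := by
      rintro _ ⟨t, ⟨ht, hta⟩, rfl⟩
      rw [mem_iUnion₂]
      rcases eq_or_lt_of_le hta.2 with h1 | h1
      · refine ⟨k, Finset.mem_range.2 (Nat.lt_succ_self k), t, ⟨ht, ?_⟩, rfl⟩
        rw [h1]
        constructor
        · have : (k : ℝ) / ((k : ℝ) + 1) ≤ 1 := by rw [div_le_one hk0]; linarith
          linarith
        · rw [div_self hk0.ne']
      · have h0 : 0 ≤ (t - a) * ((k : ℝ) + 1) := mul_nonneg (by linarith [hta.1]) hk0.le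
        refine ⟨⌊(t - a) * ((k : ℝ) + 1)⌋₊, Finset.mem_range.2 ?_, t, ⟨ht, ?_⟩, rfl⟩
        · rw [Nat.floor_lt h0]
          push_cast
          nlinarith
        · have h2 := Nat.floor_le h0
          have h3 := Nat.lt_floor_add_one ((t - a) * ((k : ℝ) + 1))
          constructor
          · have : ((⌊(t - a) * ((k : ℝ) + 1)⌋₊ : ℕ) : ℝ) / ((k : ℝ) + 1) ≤ t - a := by
              rw [div_le_iff₀ hk0]; exact h2
            linarith
          · have : t - a ≤ (((⌊(t - a) * ((k : ℝ) + 1)⌋₊ : ℕ) : ℝ) + 1) / ((k : ℝ) + 1) := by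
              rw [le_div_iff₀ hk0]; exact h3.le
            linarith
    have hpiece : ∀ i, μH[1] (F '' (Zk k ∩ I i)) ≤
        ENNReal.ofReal ε * ENNReal.ofReal (1 / ((k : ℝ) + 1)) := by
      intro i
      have hLip : LipschitzOnWith (Real.toNNReal ε) F (Zk k ∩ I i) := by
        refine LipschitzOnWith.of_dist_le_mul fun s hs t ht => ?_
        rw [dist_eq_norm, Real.dist_eq, Real.coe_toNNReal _ hε.le]
        apply ht.1.2
        have h1 := hs.2
        have h2 := ht.2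
        have h3 : (((i : ℝ)) + 1) / ((k : ℝ) + 1) = i / ((k : ℝ) + 1) + 1 / ((k : ℝ) + 1) := by
          rw [add_div]
        rw [abs_le]
        constructor <;> linarith [h1.1, h1.2, h2.1, h2.2]
      have h1 := hLip.hausdorffMeasure_image_le (d := 1) zero_le_one
      rw [ENNReal.rpow_one] at h1
      refine h1.trans (mul_le_mul' le_rfl ?_)
      rw [hausdorffMeasure_real]
      refine (measure_mono inter_subset_right).trans ?_
      rw [Real.volume_Icc]
      apply ENNReal.ofReal_le_ofReal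
      apply le_of_eq
      rw [add_div]; ring
    calc μH[1] (F '' (Zk k ∩ Icc a (a + 1))) ≤ ∑ i ∈ Finset.range (k + 1),
          μH[1] (F '' (Zk k ∩ I i)) := (measure_mono hcover).trans (measure_biUnion_finset_le _ _)
      _ ≤ ∑ i ∈ Finset.range (k + 1), ENNReal.ofReal ε * ENNReal.ofReal (1 / ((k : ℝ) + 1)) :=
          Finset.sum_le_sum fun i _ => hpiece i
      _ = ENNReal.ofReal ε := by
          rw [Finset.sum_const, Finset.card_range, nsmul_eq_mul, ← ENNReal.ofReal_natCast,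
            ← ENNReal.ofReal_mul hε.le, ← ENNReal.ofReal_mul (by positivity)]
          congr 1
          push_cast
          field_simp
  have hzero : ∀ a : ℝ, μH[1] (F '' (Z ∩ Icc a (a + 1))) = 0 := by
    intro a
    refine le_antisymm ?_ zero_le
    refine ENNReal.le_of_forall_pos_le_add fun ε hε _ => ?_
    rw [zero_add]
    have := key a ε (by exact_mod_cast hε)
    rwa [ENNReal.ofReal_coe_nnreal] at this
  have hsub : F '' Z ⊆ ⋃ n : ℤ, F '' (Z ∩ Icc (n : ℝ) (n + 1)) := by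
    rintro _ ⟨t, ht, rfl⟩
    exact mem_iUnion.2 ⟨⌊t⌋, t, ⟨ht, Int.floor_le t, (Int.lt_floor_add_one t).le⟩, rfl⟩
  exact measure_mono_null hsub (measure_iUnion_null fun n => hzero n)

/-- Arbitrarily far scales at which the axis of the cone is nearly parallel to `v`. -/
lemma exists_scale (v : E2) (M : ℕ) :
    ∃ n, M ≤ n ∧ |qx (Th n + Real.pi / 4) v| ≤ ‖v‖ / 100 := by
  obtain ⟨β, hβ⟩ : ∃ β, v = ‖v‖ • dir β := by
    by_cases hv : v = 0
    · exact ⟨0, by rw [hv]; simp⟩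
    · set z : ℂ := ⟨v 0, v 1⟩ with hz
      have hnz : ‖z‖ = ‖v‖ := by
        have h1 : ‖z‖ ^ 2 = ‖v‖ ^ 2 := by
          rw [← Complex.normSq_eq_norm_sq, Complex.normSq_apply, EuclideanSpace.norm_sq_eq,
            Fin.sum_univ_two, Real.norm_eq_abs, Real.norm_eq_abs, sq_abs, sq_abs, hz]
          ring
        exact (pow_left_inj₀ (norm_nonneg _) (norm_nonneg _) two_ne_zero).1 h1
      have hv0 : ‖v‖ ≠ 0 := norm_ne_zero_iff.2 hv
      have hz0 : z ≠ 0 := by
        rw [← norm_ne_zero_iff, hnz]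
        exact hv0
      refine ⟨Complex.arg z, ?_⟩
      have h1 := Complex.cos_arg hz0
      have h2 := Complex.sin_arg z
      rw [hnz] at h1 h2
      ext i
      unfold dir
      fin_cases i
      · simp only [PiLp.smul_apply, smul_eq_mul]
        show v 0 = ‖v‖ * Real.cos (Complex.arg z)
        rw [h1, mul_div_cancel₀ _ hv0]
      · simp only [PiLp.smul_apply, smul_eq_mul]
        show v 1 = ‖v‖ * Real.sin (Complex.arg z)
        rw [h2, mul_div_cancel₀ _ hv0]
  have hmono : Monotone Th := monotone_nat_of_le_succ fun n => by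
    rw [Th_succ]
    have := th_pos n
    linarith
  obtain ⟨k, hk⟩ := exists_nat_gt ((Th M + Real.pi / 4 - β) / Real.pi)
  rw [div_lt_iff₀ Real.pi_pos] at hk
  have hex : ∃ n, β + k * Real.pi ≤ Th n + Real.pi / 4 := by
    obtain ⟨n, hn⟩ := (Th_tendsto.eventually_ge_atTop (β + k * Real.pi)).exists
    exact ⟨n, by have := Real.pi_pos; linarith⟩
  classical
  have hn := Nat.find_spec hex
  set n := Nat.find hex with hndef
  have hMn : M < n := by
    by_contra h
    push Not at h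
    have := hmono h
    linarith
  obtain ⟨j, hj⟩ : ∃ j, n = j + 1 := ⟨n - 1, by omega⟩
  have hprev : Th j + Real.pi / 4 < β + k * Real.pi := by
    have := Nat.find_min hex (m := j) (by omega)
    push Not at this
    exact this
  refine ⟨n, hMn.le, ?_⟩
  have h1 : qx (Th n + Real.pi / 4) v = ‖v‖ * Real.sin (β - (Th n + Real.pi / 4)) := by
    conv_lhs => rw [hβ]
    rw [qx_smul]
    congr 1
    unfold qx dir
    simp only [Matrix.cons_val_zero, Matrix.cons_val_one]
    rw [Real.sin_sub]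
    ring
  have h2 : |Real.sin (β - (Th n + Real.pi / 4))| ≤ 1 / 100 := by
    have h3 := Real.sin_sub_nat_mul_pi (Th n + Real.pi / 4 - β) k
    have h4 : |Real.sin (Th n + Real.pi / 4 - β - k * Real.pi)| =
        |Real.sin (β - (Th n + Real.pi / 4))| := by
      rw [h3, abs_mul, abs_pow, abs_neg, abs_one, one_pow, one_mul,
        ← neg_sub (Th n + Real.pi / 4) β, Real.sin_neg, abs_neg]
    rw [← h4]
    refine Real.abs_sin_le_abs.trans ?_
    have h5 := th_le j
    have h6 : Th n = Th j + th j := by rw [hj, Th_succ]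
    rw [abs_of_nonneg (by linarith)]
    linarith
  rw [h1, abs_mul, abs_of_nonneg (norm_nonneg v)]
  have h3 := mul_le_mul_of_nonneg_left h2 (norm_nonneg v)
  linarith

/-- No point of a Lipschitz curve is a density point with a nonzero derivative. -/
lemma no_tangent {F : ℝ → E2} {A : Set ℝ} (hA : ∀ t ∈ A, F t ∈ E) {t : ℝ} (htA : t ∈ A) {v : E2}
    (hv : v ≠ 0) (hd : HasDerivAt F v t)
    (hdense : ∀ᶠ h in 𝓝[>] (0 : ℝ), ∃ t' ∈ A, t' ∈ Icc (t + h / 2) (t + h)) : False := by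
  classical
  have hV : 0 < ‖v‖ := norm_pos_iff.2 hv
  -- scales
  have h1 := (hasDerivAt_iff_isLittleO.1 hd).def (show 0 < ‖v‖ / 100 by positivity)
  obtain ⟨δ, hδ, hball⟩ := Metric.eventually_nhds_iff.1 h1
  obtain ⟨δ', hδ', hdense'⟩ := mem_nhdsGT_iff_exists_Ioo_subset.1 hdense
  have hlim : Tendsto (fun n : ℕ => (1 / 3 : ℝ) ^ n / ‖v‖) atTop (𝓝 0) := by
    have := (tendsto_pow_atTop_nhds_zero_of_lt_one (show (0 : ℝ) ≤ 1 / 3 by norm_num)
      (by norm_num)).div_const ‖v‖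
    rwa [zero_div] at this
  obtain ⟨M, hM⟩ := eventually_atTop.1 (hlim.eventually (gt_mem_nhds (lt_min hδ hδ')))
  obtain ⟨n, hMn, hq⟩ := exists_scale v M
  have hn := hM n hMn
  set h := (1 / 3 : ℝ) ^ n / ‖v‖ with hh
  have hpos : 0 < h := by positivity
  have hhv : h * ‖v‖ = (1 / 3) ^ n := by rw [hh]; field_simp
  obtain ⟨t', ht'A, ht'⟩ := hdense' ⟨hpos, lt_of_lt_of_le hn (min_le_right _ _)⟩
  have hτ0 : 0 < t' - t := by linarith [ht'.1]
  have herr := @hball t' (by
    rw [Real.dist_eq, abs_of_pos hτ0]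
    linarith [ht'.2, lt_of_lt_of_le hn (min_le_left _ _)])
  rw [Real.norm_eq_abs, abs_of_pos hτ0] at herr
  obtain ⟨d, hd1⟩ := hA t htA
  obtain ⟨d', hd2⟩ := hA t' ht'A
  rw [← hd1, ← hd2] at herr
  set y := pt d' - pt d with hy
  set τ := t' - t with hτ
  -- norm of y
  have hτv : ‖τ • v‖ = τ * ‖v‖ := by rw [norm_smul, Real.norm_eq_abs, abs_of_pos hτ0]
  have hy1 : ‖y‖ ≤ 101 / 100 * (τ * ‖v‖) := by
    have : ‖y‖ ≤ ‖y - τ • v‖ + ‖τ • v‖ := by
      have := norm_add_le (y - τ • v) (τ • v)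
      simpa using this
    linarith
  have hy2 : 99 / 100 * (τ * ‖v‖) ≤ ‖y‖ := by
    have : ‖τ • v‖ ≤ ‖y‖ + ‖y - τ • v‖ := by
      have := norm_sub_le y (y - τ • v)
      simpa using this
    linarith
  have hτ1 : τ * ‖v‖ ≤ (1 / 3) ^ n := by
    rw [← hhv]
    apply mul_le_mul_of_nonneg_right _ hV.le
    linarith [ht'.2]
  have hτ2 : 1 / 2 * (1 / 3) ^ n ≤ τ * ‖v‖ := by
    rw [← hhv]
    have : h / 2 * ‖v‖ ≤ τ * ‖v‖ := by
      apply mul_le_mul_of_nonneg_right _ hV.le
      linarith [ht'.1]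
    linarith
  have h3 : (0 : ℝ) < (1 / 3) ^ n := by positivity
  have hex : ∃ i, i < n + 3 ∧ d i ≠ d' i := by
    by_contra hcon
    push Not at hcon
    have h4 := agree_le (N := n + 3) fun i hi => hcon i hi
    rw [← hy, pow_add] at h4
    norm_num at h4
    have h5 : (0 : ℝ) < 3 ^ n := by positivity
    have h6 : (1 / 3 : ℝ) ^ n = ((3 : ℝ) ^ n)⁻¹ := by rw [one_div, inv_pow]
    rw [h6] at hτ2
    have h7 : (0 : ℝ) < ((3 : ℝ) ^ n)⁻¹ := by positivity
    nlinarith
  have hne := (Nat.find_spec hex).2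
  have hN := (Nat.find_spec hex).1
  have hlt : ∀ i < Nat.find hex, d i = d' i := fun i hi => by
    have := Nat.find_min hex hi
    push Not at this
    exact this (by omega)
  have hK : ((3 : ℕ) : ℝ) * th n ≤ 8 / 100 := by
    have := th_le n
    push_cast
    linarith
  have h4 := cone_pair hlt hne hN hK (by rw [← hy]; linarith)
  rw [← hy] at h4
  have h5 : |qx (Th n + Real.pi / 4) y| ≤ 2 / 100 * (τ * ‖v‖) := by
    have h6 : qx (Th n + Real.pi / 4) y = qx (Th n + Real.pi / 4) (y - τ • v) +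
        τ * qx (Th n + Real.pi / 4) v := by
      rw [qx_sub _ y (τ • v), qx_smul]; ring
    rw [h6]
    refine (abs_add_le _ _).trans ?_
    have h7 := abs_qx_le (Th n + Real.pi / 4) (y - τ • v)
    rw [abs_mul, abs_of_pos hτ0]
    have h8 : τ * |qx (Th n + Real.pi / 4) v| ≤ τ * (‖v‖ / 100) :=
      mul_le_mul_of_nonneg_left hq hτ0.le
    linarith
  have h6 : 0 < τ * ‖v‖ := by positivity
  linarith

lemma curve_null {F : ℝ → E2} {C : ℝ≥0} (hF : LipschitzWith C F) : μH[1] (E ∩ range F) = 0 := by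
  set A := F ⁻¹' E with hA
  have hAm : MeasurableSet A := (E_compact.isClosed.preimage hF.continuous).measurableSet
  have h1 : E ∩ range F = F '' A := by
    rw [hA, image_preimage_eq_inter_range]
  have hdiff : volume {t | ¬ DifferentiableAt ℝ F t} = 0 := by
    have := hF.ae_differentiableAt (μ := volume)
    exact this
  have hdens := Besicovitch.ae_tendsto_measure_inter_div (volume : Measure ℝ) A
  rw [ae_restrict_iff' hAm] at hdens
  have hsub : F '' A ⊆ F '' {t | ¬ DifferentiableAt ℝ F t} ∪ F '' {t | HasDerivAt F 0 t} ∪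
      F '' {t | ¬ (t ∈ A → Tendsto (fun r => volume (A ∩ Metric.closedBall t r) /
        volume (Metric.closedBall t r)) (𝓝[>] 0) (𝓝 1))} := by
    rintro _ ⟨t, ht, rfl⟩
    by_cases hd : DifferentiableAt ℝ F t
    · by_cases h0 : deriv F t = 0
      · refine Or.inl (Or.inr ⟨t, ?_, rfl⟩)
        have := hd.hasDerivAt
        rw [h0] at this
        exact this
      · right
        refine ⟨t, fun himp => ?_, rfl⟩
        have hlim := himp ht
        refine no_tangent (fun t ht => ht) ht h0 hd.hasDerivAt ?_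
        have hev := hlim.eventually (lt_mem_nhds (show (3 / 4 : ℝ≥0∞) < 1 by
          rw [ENNReal.div_lt_iff (by simp) (by simp)]
          norm_num))
        filter_upwards [hev, self_mem_nhdsWithin] with r hr hr0
        have hr0' : (0 : ℝ) < r := hr0
        by_contra hcon
        push Not at hcon
        have h2 : A ∩ Metric.closedBall t r ⊆ Icc (t - r) (t + r / 2) := by
          rintro s ⟨hs, hsb⟩
          rw [Metric.mem_closedBall, Real.dist_eq, abs_le] at hsb
          refine ⟨by linarith [hsb.1], ?_⟩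
          by_contra h3
          push Not at h3
          exact hcon s hs ⟨h3.le, by linarith [hsb.2]⟩
        have h3 := measure_mono (μ := volume) h2
        rw [Real.volume_Icc] at h3
        rw [Real.volume_closedBall, ENNReal.lt_div_iff_mul_lt (Or.inl (by simpa using hr0'))
          (Or.inl ENNReal.ofReal_ne_top)] at hr
        have h4 := lt_of_lt_of_le hr h3
        have h5 : (3 / 4 : ℝ≥0∞) * ENNReal.ofReal (2 * r) = ENNReal.ofReal (3 / 4 * (2 * r)) := by
          have h6 : (3 / 4 : ℝ≥0∞) = ENNReal.ofReal (3 / 4) := by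
            rw [ENNReal.ofReal_div_of_pos (by norm_num)]
            simp
          rw [ENNReal.ofReal_mul (show (0 : ℝ) ≤ 3 / 4 by norm_num), h6]
        rw [h5, ENNReal.ofReal_lt_ofReal_iff (by linarith)] at h4
        linarith
    · exact Or.inl (Or.inl ⟨t, hd, rfl⟩)
  rw [h1]
  refine measure_mono_null hsub (measure_union_null (measure_union_null ?_ (crit F)) ?_)
  · exact image_null hF hdiff
  · exact image_null hF hdens

lemma unrectifiable : IsPurelyUnrectifiable 1 E := by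
  rintro G ⟨f, hf, hG⟩
  rw [Nat.cast_one] at hG ⊢
  have hsub : E ∩ G ⊆ (G \ ⋃ i, range (f i)) ∪ ⋃ i, (E ∩ range (f i)) := by
    rintro x ⟨hxE, hxG⟩
    by_cases h : x ∈ ⋃ i, range (f i)
    · obtain ⟨i, hi⟩ := mem_iUnion.1 h
      exact Or.inr (mem_iUnion.2 ⟨i, hxE, hi⟩)
    · exact Or.inl ⟨hxG, h⟩
  refine measure_mono_null hsub (measure_union_null hG (measure_iUnion_null fun i => ?_))
  obtain ⟨C, hC⟩ := hf i
  let ι : ℝ → EuclideanSpace ℝ (Fin 1) := fun t => EuclideanSpace.single 0 t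
  have hι : LipschitzWith 1 ι := by
    refine LipschitzWith.of_dist_le_mul fun s t => ?_
    rw [NNReal.coe_one, one_mul]
    exact (PiLp.dist_single_same (p := 2) (fun _ : Fin 1 => ℝ) 0 s t).le
  have hrange : range (f i) ⊆ range (f i ∘ ι) := by
    rintro _ ⟨x, rfl⟩
    refine ⟨x 0, ?_⟩
    show f i (ι (x 0)) = f i x
    congr 1
    ext j
    have : j = 0 := Subsingleton.elim _ _
    subst this
    simp [ι]
  exact measure_mono_null (inter_subset_inter_right _ hrange) (curve_null (hC.comp hι))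

/-- There is a compact purely `1`-unrectifiable set `E` in the plane of positive and finite
length such that for every opening `α ≤ 1/2` the quantity `Θ_α(μ, x)` of the restriction `μ` of
the length to `E` vanishes at every point `x` of `E`. -/
theorem result : ∃ E : Set E2, IsCompact E ∧ IsPurelyUnrectifiable 1 E ∧
    0 < μH[1] E ∧ μH[1] E < ⊤ ∧
    ∀ α : ℝ, 0 < α → α ≤ 1 / 2 → ∀ x ∈ E,
      upperConical 1 α ((μH[1] : Measure E2).restrict E) x = 0 :=
  ⟨E, E_compact, unrectifiable, measure_E_pos, measure_E_lt_top,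
    fun _ _ hα _ hx => upper_zero hα hx⟩

end Pool.Agent.Results.MP_924b48_an.RotatingDust
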